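import Pool.Agent.W350.Edge4

/-!
# The Selberg class, vertical shifts and the orthogonality sums
-/

set_option autoImplicit false

namespace Pool.Agent.TH958.SO

open Complex Filter Topology

/-- The sequence `a` of Dirichlet coefficients belongs to the Selberg class, with `(s - 1) ^ m F(s)`
entire. -/
def InSelbergWith (m : ℕ) (a : ℕ → ℂ) : Prop :=
  a 1 = 1 ∧
  (∀ ε : ℝ, 0 < ε → ∃ C : ℝ, ∀ n : ℕ, 1 ≤ n → ‖a n‖ ≤ C * (n : ℝ) ^ ε) ∧
  (∃ G : ℂ → ℂ, Differentiable ℂ G ∧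
    (∃ ρ C : ℝ, ∀ z : ℂ, ‖G z‖ ≤ C * Real.exp (‖z‖ ^ ρ)) ∧
    (∀ s : ℂ, 1 < s.re → G s = (s - 1) ^ m * LSeries a s) ∧
    (∃ Q : ℝ, 0 < Q ∧ ∃ k : ℕ, ∃ lam : Fin k → ℝ, ∃ μ : Fin k → ℂ, ∃ ω : ℂ,
      (∀ j, 0 < lam j) ∧ (∀ j, 0 ≤ (μ j).re) ∧ ‖ω‖ = 1 ∧
      ∀ s : ℂ, 0 < s.re → s.re < 1 →
        (Q : ℂ) ^ s * (∏ j, Complex.Gamma ((lam j : ℂ) * s + μ j)) * (G s / (s - 1) ^ m) =
        ω * starRingEnd ℂ ((Q : ℂ) ^ (1 - starRingEnd ℂ s)
          * (∏ j, Complex.Gamma ((lam j : ℂ) * (1 - starRingEnd ℂ s) + μ j))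
          * (G (1 - starRingEnd ℂ s) / ((1 - starRingEnd ℂ s) - 1) ^ m)))) ∧
  (∃ b : ℕ → ℂ, (∀ n : ℕ, ¬ IsPrimePow n → b n = 0) ∧
    ∃ θ : ℝ, θ < 1 / 2 ∧ ∃ C : ℝ, (∀ n : ℕ, 1 ≤ n → ‖b n‖ ≤ C * (n : ℝ) ^ θ) ∧
    ∀ s : ℂ, 1 < s.re → LSeries a s = Complex.exp (LSeries b s))

/-- Membership in the Selberg class. -/
def InSelberg (a : ℕ → ℂ) : Prop := ∃ m : ℕ, InSelbergWith m a

/-- The coefficients `a_n n ^ (-i t)` of the shift `F(s + i t)`. -/
noncomputable def shift (a : ℕ → ℂ) (t : ℝ) (n : ℕ) : ℂ := a n * (n : ℂ) ^ (-(t * I))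

/-- The orthogonality sum over the primes up to `N`. -/
noncomputable def orthSum (a b : ℕ → ℂ) (N : ℕ) : ℂ :=
  ∑ p ∈ (Finset.Iic N).filter Nat.Prime, a p * starRingEnd ℂ (b p) / (p : ℂ)

/-! ### The shift -/

lemma norm_cpow_I (n : ℕ) (hn : 1 ≤ n) (t : ℝ) : ‖(n : ℂ) ^ (-(t * I))‖ = 1 := by
  rw [Complex.norm_natCast_cpow_of_pos (by omega)]
  simp

lemma norm_shift (a : ℕ → ℂ) (t : ℝ) (n : ℕ) (hn : 1 ≤ n) : ‖shift a t n‖ = ‖a n‖ := by
  unfold shift
  rw [norm_mul, norm_cpow_I n hn, mul_one]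

lemma lseries_shift (a : ℕ → ℂ) (t : ℝ) (s : ℂ) : LSeries (shift a t) s = LSeries a (s + t * I) := by
  unfold LSeries
  congr 1
  funext n
  rcases eq_or_ne n 0 with rfl | hn
  · simp
  · rw [LSeries.term_of_ne_zero hn, LSeries.term_of_ne_zero hn]
    unfold shift
    have hn' : (n : ℂ) ≠ 0 := by exact_mod_cast hn
    rw [Complex.cpow_neg, Complex.cpow_add _ _ hn']
    have h1 : (n : ℂ) ^ s ≠ 0 := by simp [Complex.cpow_eq_zero_iff, hn']
    have h2 : (n : ℂ) ^ (t * I) ≠ 0 := by simp [Complex.cpow_eq_zero_iff, hn']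
    field_simp

lemma growth {G : ℂ → ℂ} (hG : Differentiable ℂ G)
    (h : ∃ ρ C : ℝ, ∀ z : ℂ, ‖G z‖ ≤ C * Real.exp (‖z‖ ^ ρ)) (t : ℝ) :
    ∃ ρ C : ℝ, ∀ z : ℂ, ‖G (z + t * I)‖ ≤ C * Real.exp (‖z‖ ^ ρ) := by
  obtain ⟨ρ, C, h⟩ := h
  obtain ⟨M, hM⟩ := (isCompact_closedBall (0 : ℂ) 1).exists_bound_of_continuousOn
    hG.continuous.continuousOn
  set R : ℝ := |ρ| with hR
  have hR0 : 0 ≤ R := abs_nonneg _
  have hM0 : 0 ≤ M := (norm_nonneg _).trans (hM 0 (by simp))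
  have h1 : ∀ w : ℂ, ‖G w‖ ≤ (|C| + M) * Real.exp (‖w‖ ^ R) := by
    intro w
    rcases le_total ‖w‖ 1 with hw | hw
    · have h2 := hM w (by simpa using hw)
      have h3 : 1 ≤ Real.exp (‖w‖ ^ R) := Real.one_le_exp (by positivity)
      calc ‖G w‖ ≤ M := h2
        _ ≤ (|C| + M) * 1 := by linarith [abs_nonneg C]
        _ ≤ (|C| + M) * Real.exp (‖w‖ ^ R) := by gcongr
    · have h2 : ‖w‖ ^ ρ ≤ ‖w‖ ^ R := Real.rpow_le_rpow_of_exponent_le hw (le_abs_self ρ)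
      calc ‖G w‖ ≤ C * Real.exp (‖w‖ ^ ρ) := h w
        _ ≤ |C| * Real.exp (‖w‖ ^ R) := by
          have := le_abs_self C
          have h3 : 0 < Real.exp (‖w‖ ^ ρ) := Real.exp_pos _
          calc C * Real.exp (‖w‖ ^ ρ) ≤ |C| * Real.exp (‖w‖ ^ ρ) := by gcongr
            _ ≤ _ := by gcongr
        _ ≤ _ := by gcongr; linarith
  set X : ℝ := 2 ^ R + |t| + 1 with hX
  have hX1 : 1 ≤ X := by
    have : (0 : ℝ) ≤ 2 ^ R := by positivity
    have := abs_nonneg t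
    linarith
  refine ⟨R + 1, (|C| + M) * Real.exp ((X + |t|) ^ R), fun z => ?_⟩
  have h4 : ‖z + t * I‖ ≤ ‖z‖ + |t| := by
    refine (norm_add_le _ _).trans ?_
    simp
  have h5 : ‖z + t * I‖ ^ R ≤ (X + |t|) ^ R + ‖z‖ ^ (R + 1) := by
    have ht0 := abs_nonneg t
    have hz0 := norm_nonneg z
    rcases le_total ‖z‖ X with hz | hz
    · calc ‖z + t * I‖ ^ R ≤ (X + |t|) ^ R := by gcongr; linarith
        _ ≤ _ := by
          have : 0 ≤ ‖z‖ ^ (R + 1) := by positivity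
          linarith
    · have hz1 : 1 ≤ ‖z‖ := hX1.trans hz
      have h2R : (0 : ℝ) ≤ 2 ^ R := by positivity
      calc ‖z + t * I‖ ^ R ≤ (2 * ‖z‖) ^ R := by
            gcongr
            linarith
        _ = 2 ^ R * ‖z‖ ^ R := Real.mul_rpow (by norm_num) hz0
        _ ≤ ‖z‖ * ‖z‖ ^ R := by gcongr; linarith
        _ = ‖z‖ ^ (R + 1) := by
          rw [Real.rpow_add (by linarith), Real.rpow_one]
          ring
        _ ≤ _ := by
          have : 0 ≤ (X + |t|) ^ R := by positivity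
          linarith
  calc ‖G (z + t * I)‖ ≤ (|C| + M) * Real.exp (‖z + t * I‖ ^ R) := h1 _
    _ ≤ (|C| + M) * Real.exp ((X + |t|) ^ R + ‖z‖ ^ (R + 1)) := by
      have : 0 ≤ |C| + M := by positivity
      gcongr
    _ = _ := by rw [Real.exp_add]; ring

/-- The shifts of an entire member of the Selberg class belong to the Selberg class. -/
theorem shift_mem {a : ℕ → ℂ} (ha : InSelbergWith 0 a) (t : ℝ) : InSelbergWith 0 (shift a t) := by
  obtain ⟨h1, h2, ⟨G, hG, hgr, hGL, Q, hQ, k, lam, μ, ω, hlam, hμ, hω, hfe⟩, b, hb, θ, hθ, C, hC,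
    hbL⟩ := ha
  refine ⟨?_, ?_, ⟨fun z => G (z + t * I), ?_, growth hG hgr t, ?_, Q, hQ, k, lam,
    fun j => μ j + lam j * (t * I), ω * (Q : ℂ) ^ (-(2 * t * I)), hlam, ?_, ?_, ?_⟩,
    shift b t, ?_, θ, hθ, C, ?_, ?_⟩
  · simp [shift, h1]
  · intro ε hε
    obtain ⟨C, hC⟩ := h2 ε hε
    exact ⟨C, fun n hn => by rw [norm_shift a t n hn]; exact hC n hn⟩
  · exact hG.comp (differentiable_id.add_const _)
  · intro s hs
    have := hGL (s + t * I) (by simpa using hs)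
    simp only [pow_zero, one_mul] at this ⊢
    rw [this, lseries_shift]
  · intro j
    simpa using hμ j
  · have hQ' : (Q : ℂ) ≠ 0 := by exact_mod_cast hQ.ne'
    rw [norm_mul, hω, one_mul, Complex.norm_cpow_eq_rpow_re_of_pos hQ]
    simp
  · intro s hs0 hs1
    have hQ' : (Q : ℂ) ≠ 0 := by exact_mod_cast hQ.ne'
    have h := hfe (s + t * I) (by simpa using hs0) (by simpa using hs1)
    simp only [pow_zero, div_one] at h ⊢
    have hc : starRingEnd ℂ (s + t * I) = starRingEnd ℂ s - t * I := by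
      simp [Complex.conj_ofReal]
      ring
    rw [hc] at h
    have e1 : (1 : ℂ) - (starRingEnd ℂ s - t * I) = 1 - starRingEnd ℂ s + t * I := by ring
    rw [e1] at h
    have e2 : ∀ j, (lam j : ℂ) * s + (μ j + lam j * (t * I)) = lam j * (s + t * I) + μ j := by
      intro j; ring
    have e3 : ∀ j, (lam j : ℂ) * (1 - starRingEnd ℂ s) + (μ j + lam j * (t * I)) =
        lam j * (1 - starRingEnd ℂ s + t * I) + μ j := by
      intro j; ring
    simp only [e2, e3]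
    have hu : (Q : ℂ) ^ (t * I : ℂ) ≠ 0 := by simp [Complex.cpow_eq_zero_iff, hQ']
    have hcu : starRingEnd ℂ ((Q : ℂ) ^ (t * I : ℂ)) = ((Q : ℂ) ^ (t * I : ℂ))⁻¹ := by
      have h3 : ‖(Q : ℂ) ^ (t * I : ℂ)‖ = 1 := by
        rw [Complex.norm_cpow_eq_rpow_re_of_pos hQ]
        simp
      rw [Complex.inv_def, Complex.normSq_eq_norm_sq, h3]
      simp
    have h2u : (Q : ℂ) ^ (-(2 * t * I) : ℂ) = ((Q : ℂ) ^ (t * I : ℂ))⁻¹ * ((Q : ℂ) ^ (t * I : ℂ))⁻¹ := by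
      rw [← Complex.cpow_neg, ← Complex.cpow_add _ _ hQ']
      congr 1
      ring
    rw [Complex.cpow_add _ _ hQ', Complex.cpow_add _ _ hQ'] at h
    set u := (Q : ℂ) ^ (t * I : ℂ) with hu'
    simp only [map_mul] at h ⊢
    rw [hcu] at h
    rw [h2u]
    have h4 : ∀ A B D : ℂ, A * B * D = u⁻¹ * (A * u * B * D) := by
      intro A B D
      field_simp
    rw [h4 ((Q : ℂ) ^ s), h]
    ring
  · intro n hn
    unfold shift
    rw [hb n hn, zero_mul]
  · intro n hn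
    rw [norm_shift b t n hn]
    exact hC n hn
  · intro s hs
    rw [lseries_shift, lseries_shift]
    exact hbL _ (by simpa using hs)

/-! ### The sums -/

open Pool.Agent.W350.Edge

/-- The product of the prime coefficients (cut off at non-primes). -/
noncomputable def prodC (a b : ℕ → ℂ) (p : ℕ) : ℂ := if p.Prime then a p * starRingEnd ℂ (b p) else 0

lemma orth_eq (a b : ℕ → ℂ) (t : ℝ) (N : ℕ) :
    orthSum a (shift b t) N = ps (prodC a b) (-t) (N + 1) := by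
  unfold orthSum ps
  have : Finset.range (N + 1) = Finset.Iic N := by
    ext x; simp [Nat.lt_succ_iff]
  rw [this, Finset.sum_filter]
  refine Finset.sum_congr rfl fun p _ => ?_
  unfold term prodC
  split_ifs with hp
  · have hp0 : (p : ℂ) ≠ 0 := by exact_mod_cast hp.ne_zero
    unfold shift
    rw [map_mul]
    have h1 : starRingEnd ℂ ((p : ℂ) ^ (-(t * I) : ℂ)) =
        Complex.exp (-(((-t : ℝ) : ℂ) * (Real.log p : ℂ)) * I) := by
      rw [Complex.cpow_def_of_ne_zero hp0, ← Complex.exp_conj]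
      have hl : Complex.log (p : ℂ) = ((Real.log p : ℝ) : ℂ) := Complex.natCast_log.symm
      rw [hl]
      congr 1
      simp only [map_mul, map_neg, Complex.conj_ofReal, Complex.conj_I]
      push_cast
      ring
    rw [h1]
    ring
  · rfl

/-- For bounded prime coefficients the orthogonality sums of `a` and of the shifts of `b` converge
outside a set of shifts of Hausdorff dimension zero. -/
theorem pair (a b : ℕ → ℂ) (ha : ∃ D : ℝ, ∀ p : ℕ, p.Prime → ‖a p‖ ≤ D)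
    (hb : ∃ D : ℝ, ∀ p : ℕ, p.Prime → ‖b p‖ ≤ D) :
    ∃ T : Set ℝ, dimH T = 0 ∧ ∀ t : ℝ, t ∉ T → ∃ l : ℂ, Tendsto (orthSum a (shift b t)) atTop (𝓝 l) := by
  obtain ⟨D, hD⟩ := ha
  obtain ⟨E, hE⟩ := hb
  have hbd : ∀ p, ‖prodC a b p‖ ≤ |D| * |E| := by
    intro p
    unfold prodC
    split_ifs with hp
    · rw [norm_mul, RCLike.norm_conj]
      exact mul_le_mul ((hD p hp).trans (le_abs_self _)) ((hE p hp).trans (le_abs_self _))
        (norm_nonneg _) (abs_nonneg _)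
    · simp only [norm_zero]
      positivity
  refine ⟨(fun x : ℝ => -x) ⁻¹' divSet (prodC a b), ?_, fun t ht => ?_⟩
  · have h1 : (fun x : ℝ => -x) ⁻¹' divSet (prodC a b) = (fun x : ℝ => -x) '' divSet (prodC a b) := by
      ext x
      simp only [Set.mem_preimage, Set.mem_image]
      constructor
      · intro h; exact ⟨-x, h, by simp⟩
      · rintro ⟨y, hy, rfl⟩; simpa using hy
    have h2 : Isometry fun x : ℝ => -x := (LinearIsometryEquiv.neg ℝ).isometry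
    rw [h1, h2.dimH_image]
    exact dimH_divSet _ _ hbd
  · have h3 : ¬ ¬ ∃ l, Tendsto (ps (prodC a b) (-t)) atTop (𝓝 l) := ht
    obtain ⟨l, hl⟩ := not_not.1 h3
    refine ⟨l, ?_⟩
    have h4 : orthSum a (shift b t) = fun N => ps (prodC a b) (-t) (N + 1) := by
      funext N
      exact orth_eq a b t N
    rw [h4]
    exact hl.comp (tendsto_add_atTop_nat 1)

end Pool.Agent.TH958.SO
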